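import Pool.Agent.Work.MP_156639_an_helper43.AL3

/-!
# MP_156639_an : block AL, part 4 (membership, convergence, assembly)
-/

set_option autoImplicit false

open scoped BigOperators
open Filter Topology

namespace Pool.Agent.MP156639
namespace AL

variable {Ω : Type} [LinearOrder Ω]
variable {D : LD Ω} {S : ℕ → Set (ℕ × Ω × ℕ)} {z : Pt Ω → ℝ} {βs : Ω}

lemma SS_of_finite (f : Vx Ω → ℝ) (hf : {v | f v ≠ 0}.Finite) (hl : ∀ v, Lim v → f v = 0) :
    f ∈ D.SS := by
  classical
  have e : f = ∑ v ∈ hf.toFinset, f v • (fun w => if w = v then (1 : ℝ) else 0) := by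
    funext w
    rw [Finset.sum_apply]
    simp only [Pi.smul_apply, smul_eq_mul, mul_ite, mul_one, mul_zero]
    rw [Finset.sum_ite_eq]
    split_ifs with h
    · rfl
    · simp only [Set.Finite.mem_toFinset, Set.mem_ofPred_eq, not_not] at h
      exact h
  rw [e]
  apply Submodule.sum_mem
  intro v hv
  apply Submodule.smul_mem
  apply Submodule.subset_span
  left
  refine ⟨v, ?_, ?_⟩
  · intro h
    simp only [Set.Finite.mem_toFinset, Set.mem_ofPred_eq] at hv
    exact hv (hl v h)
  · funext w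
    congr

/-- the vertices touched by `S J` -/
def EE (S : ℕ → Set (ℕ × Ω × ℕ)) (J : ℕ) : Set (Vx Ω) :=
  {v | (v.1, ns v) ∈ S J ∨ (v.1, sl v) ∈ S J ∨ (v.1, sr v) ∈ S J}

lemma EE_finite (hS : Exh D z βs S) (J : ℕ) : (EE S J).Finite := by
  have h : EE S J ⊆ ⋃ t ∈ S J, (fun l => ((t.1, t.2.1, l) : Vx Ω)) ''
      (Set.Iio (2 * (t.1 + 1) * (t.2.2 + 1))) := by
    rintro ⟨N, β, l⟩ hv
    simp only [Set.mem_iUnion]
    rcases hv with h | h | h
    · refine ⟨_, h, l, ?_, rfl⟩
      exact near_lt rfl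
    · refine ⟨_, h, l, ?_, rfl⟩
      show l < 2 * (N + 1) * (l / (2 * (N + 1)) + 1)
      rw [mul_add (2 * (N + 1)) _ 1, mul_one]
      have := Nat.div_add_mod l (2 * (N + 1))
      have h2 : l % (2 * (N + 1)) < 2 * (N + 1) := Nat.mod_lt _ (by omega)
      omega
    · refine ⟨_, h, l, ?_, rfl⟩
      show l < 2 * (N + 1) * (l / (2 * (N + 1)) + 1 + 1)
      rw [mul_add (2 * (N + 1)) _ 1, mul_add (2 * (N + 1)) _ 1, mul_one]
      have := Nat.div_add_mod l (2 * (N + 1))
      have h2 : l % (2 * (N + 1)) < 2 * (N + 1) := Nat.mod_lt _ (by omega)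
      omega
  refine Set.Finite.subset ?_ h
  apply Set.Finite.biUnion (hS.fin J)
  intro t _
  exact (Set.finite_Iio _).image _

/-- the limit vertices in `S J` -/
def GG (S : ℕ → Set (ℕ × Ω × ℕ)) (J : ℕ) : Set (ℕ × Ω) :=
  {g | NonMin g.2 ∧ (g.1, g.2, 0) ∈ S J}

lemma GG_finite (hS : Exh D z βs S) (J : ℕ) : (GG S J).Finite := by
  apply Set.Finite.subset ((hS.fin J).image (fun t => (t.1, t.2.1)))
  rintro ⟨N, β⟩ ⟨_, h⟩
  exact ⟨_, h, rfl⟩

lemma not_act_zero {J N : ℕ} {β : Ω} : ¬ ∃ β', Act D S J N (β, 0) β' := by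
  rintro ⟨β', h1, _, ⟨a, h3⟩, _⟩
  have := D.lad_pos β' h1 a
  rw [← h3] at this
  simp at this

lemma hh_mem (hS : Exh D z βs S) (J m : ℕ) : (fun v => hh D S z J (v, m)) ∈ D.SS := by
  classical
  set Γ := (GG_finite hS J).toFinset with hΓ
  have hmemΓ : ∀ g, g ∈ Γ ↔ NonMin g.2 ∧ (g.1, g.2, 0) ∈ S J := by
    intro g; rw [hΓ, Set.Finite.mem_toFinset]; rfl
  set f : Vx Ω → ℝ := ∑ g ∈ Γ, soft J (z ((g.1, g.2, 0), m)) • D.G g.1 g.2 with hf
  have hf_mem : f ∈ D.SS := by
    apply Submodule.sum_mem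
    intro g hg
    apply Submodule.smul_mem
    apply Submodule.subset_span
    right
    exact ⟨g.1, g.2, ((hmemΓ g).mp hg).1, rfl⟩
  have hd : (fun v => hh D S z J (v, m)) - f ∈ D.SS := by
    apply SS_of_finite
    · apply (EE_finite hS J).subset
      intro v hv
      by_contra hE
      apply hv
      have hE1 : (v.1, ns v) ∉ S J := fun h => hE (Or.inl h)
      have hE2 : (v.1, sl v) ∉ S J := fun h => hE (Or.inr (Or.inl h))
      have hE3 : (v.1, sr v) ∉ S J := fun h => hE (Or.inr (Or.inr h))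
      simp only [Pi.sub_apply]
      rw [sub_eq_zero]
      unfold hh inS
      simp only
      rw [if_neg hE2, if_neg hE3, mul_zero, mul_zero, zero_add, zero_add, hf, Finset.sum_apply]
      simp only [Pi.smul_apply, smul_eq_mul]
      by_cases hex : ∃ β', Act D S J v.1 (ns v) β'
      · obtain ⟨β', hβ'⟩ := hex
        rw [tl_of_act hS hβ', Finset.sum_eq_single (v.1, β')]
        · unfold LD.G
          rw [if_pos ⟨rfl, Or.inr hβ'.2.2.1⟩]
          ring
        · intro g hg hne
          unfold LD.G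
          rw [if_neg, mul_zero]
          rintro ⟨h1, h2⟩
          rcases h2 with h2 | h2
          · apply hE1
            rw [h2, h1]
            exact ((hmemΓ g).mp hg).2
          · have h3 : Act D S J v.1 (ns v) g.2 :=
              ⟨((hmemΓ g).mp hg).1, by rw [h1]; exact ((hmemΓ g).mp hg).2, h2, hE1⟩
            apply hne
            rw [Act.unique hS hβ' h3, h1]
        · intro hne
          exact absurd ((hmemΓ (v.1, β')).mpr ⟨hβ'.1, hβ'.2.1⟩) hne
      · rw [tl_of_not hex, mul_zero]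
        symm
        apply Finset.sum_eq_zero
        intro g hg
        unfold LD.G
        rw [if_neg, mul_zero]
        rintro ⟨h1, h2⟩
        rcases h2 with h2 | h2
        · apply hE1
          rw [h2, h1]
          exact ((hmemΓ g).mp hg).2
        · exact hex ⟨g.2, ((hmemΓ g).mp hg).1, by rw [h1]; exact ((hmemΓ g).mp hg).2, h2, hE1⟩
    · rintro ⟨N, β, l⟩ ⟨h1, h2⟩
      simp only at h1 h2
      subst h1
      simp only [Pi.sub_apply]
      rw [sub_eq_zero]
      unfold hh
      simp only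
      rw [ns_zero, tl_of_not not_act_zero, mul_zero, add_zero]
      have h3 : fr ((N, β, 0) : Vx Ω) = 0 := by unfold fr; simp
      have h4 : sl ((N, β, 0) : Vx Ω) = (β, 0) := by unfold sl; simp
      rw [h3, h4, zero_mul, add_zero, sub_zero, one_mul, hf, Finset.sum_apply]
      simp only [Pi.smul_apply, smul_eq_mul]
      unfold inS
      split_ifs with h5
      · rw [Finset.sum_eq_single (N, β)]
        · simp only
          rw [LD.G_self, mul_one]
        · intro g hg hne
          rw [LD.G_other _ _ _ _ ((hmemΓ g).mp hg).1 hne, mul_zero]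
        · intro hne
          exact absurd ((hmemΓ (N, β)).mpr ⟨h2, h5⟩) hne
      · symm
        apply Finset.sum_eq_zero
        intro g hg
        rw [LD.G_other _ _ _ _ ((hmemΓ g).mp hg).1, mul_zero]
        intro h6
        apply h5
        have h7 := ((hmemΓ g).mp hg).2
        have h8 : g = (N, β) := h6
        rw [h8] at h7
        exact h7
  have := Submodule.add_mem _ hd hf_mem
  rwa [sub_add_cancel] at this

lemma soft_eventually {x : ℕ → ℝ} (hx : Tendsto x atTop (𝓝 0)) (J : ℕ) :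
    ∀ᶠ m in atTop, soft J (x m) = 0 := by
  have h : (0 : ℝ) < 1 / ((J : ℝ) + 1) := by positivity
  have h2 := hx.abs
  rw [abs_zero] at h2
  filter_upwards [h2.eventually_lt_const h] with m hm
  exact soft_eq_zero J _ hm.le

lemma hh_large (hS : Exh D z βs S) (hz0 : ∀ v, Tendsto (fun m => z (v, m)) atTop (𝓝 0)) (J : ℕ) :
    ∃ M, ∀ m ≥ M, ∀ v, hh D S z J (v, m) = 0 := by
  have h1 : ∀ᶠ m in atTop, ∀ v ∈ EE S J, soft J (z (v, m)) = 0 := by
    rw [Set.Finite.eventually_all (EE_finite hS J)]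
    intro v _
    exact soft_eventually (hz0 v) J
  have h2 : ∀ᶠ m in atTop, ∀ g ∈ GG S J, soft J (z ((g.1, g.2, 0), m)) = 0 := by
    rw [Set.Finite.eventually_all (GG_finite hS J)]
    intro g _
    exact soft_eventually (hz0 _) J
  obtain ⟨M, hM⟩ := Filter.eventually_atTop.mp (h1.and h2)
  refine ⟨M, fun m hm v => ?_⟩
  obtain ⟨h3, h4⟩ := hM m hm
  unfold hh
  simp only
  have h5 : tl D S z J v.1 (ns v) m = 0 := by
    by_cases hex : ∃ β', Act D S J v.1 (ns v) β'
    · obtain ⟨β', hβ'⟩ := hex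
      rw [tl_of_act hS hβ']
      exact h4 (v.1, β') ⟨hβ'.1, hβ'.2.1⟩
    · exact tl_of_not hex m
  have h6 : ∀ s, (s = sl v ∨ s = sr v) → inS S J v.1 s (soft J (z (v, m))) = 0 := by
    intro s hs
    unfold inS
    split_ifs with h
    · apply h3
      rcases hs with rfl | rfl
      · exact Or.inr (Or.inl h)
      · exact Or.inr (Or.inr h)
    · rfl
  rw [h5, h6 _ (Or.inl rfl), h6 _ (Or.inr rfl)]
  ring

lemma hh_GS (hTG : Stmt_TG) (hS : Exh D z βs S)
    (hz0 : ∀ v, Tendsto (fun m => z (v, m)) atTop (𝓝 0)) (J : ℕ) : hh D S z J ∈ D.GS := by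
  obtain ⟨M, hM⟩ := hh_large hS hz0 J
  have e : hh D S z J = ∑ m ∈ Finset.range M,
      tens (fun v => hh D S z J (v, m)) (fun m' => if m' = m then 1 else 0) := by
    funext p
    obtain ⟨v, m⟩ := p
    rw [Finset.sum_apply]
    unfold tens
    simp only [mul_ite, mul_one, mul_zero]
    rw [Finset.sum_ite_eq]
    split_ifs with h
    · rfl
    · exact hM m (by simpa using h) v
  rw [e]
  apply Submodule.sum_mem
  intro m _
  apply hTG Ω D _ (hh_mem hS J m)
  refine ⟨m + 1, fun m' hm' => ?_⟩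
  rw [if_neg (by omega)]

lemma hh_lim (hS : Exh D z βs S) (hv0 : ∀ v : Vx Ω, βs ≤ v.2.1 → ∀ m, z (v, m) = 0) (p : Pt Ω) :
    Tendsto (fun J => hh D S z J p) atTop (𝓝 (z p)) := by
  obtain ⟨v, m⟩ := p
  rcases lt_or_ge v.2.1 βs with h | h
  · obtain ⟨J1, h1⟩ := hS.exh v.1 v.2.1 (v.2.2 / (2 * (v.1 + 1))) h
    obtain ⟨J2, h2⟩ := hS.exh v.1 v.2.1 (v.2.2 / (2 * (v.1 + 1)) + 1) h
    obtain ⟨J3, h3⟩ := hS.exh v.1 v.2.1 (near v.1 v.2.2) h
    have hev : ∀ᶠ J in atTop, soft J (z (v, m)) = hh D S z J (v, m) := by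
      filter_upwards [eventually_ge_atTop J1, eventually_ge_atTop J2, eventually_ge_atTop J3]
        with J hJ1 hJ2 hJ3
      unfold hh
      simp only
      have e1 : inS S J v.1 (sl v) (soft J (z (v, m))) = soft J (z (v, m)) := by
        unfold inS; exact if_pos (hS.mono hJ1 h1)
      have e2 : inS S J v.1 (sr v) (soft J (z (v, m))) = soft J (z (v, m)) := by
        unfold inS; exact if_pos (hS.mono hJ2 h2)
      have e3 : tl D S z J v.1 (ns v) m = 0 := by
        apply tl_of_not
        rintro ⟨β', h4⟩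
        exact h4.2.2.2 (hS.mono hJ3 h3)
      rw [e1, e2, e3]
      ring
    refine Tendsto.congr' hev ?_
    rw [tendsto_iff_dist_tendsto_zero]
    refine squeeze_zero (fun _ => dist_nonneg) (fun J => ?_)
      (tendsto_one_div_add_atTop_nhds_zero_nat (𝕜 := ℝ))
    rw [Real.dist_eq]
    exact soft_near J _
  · have hev : ∀ J, hh D S z J (v, m) = 0 := by
      intro J
      unfold hh
      simp only
      have e1 : inS S J v.1 (sl v) (soft J (z (v, m))) = 0 := by
        unfold inS; rw [if_neg]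
        intro h1
        exact absurd (hS.sub J v.1 v.2.1 _ h1) (not_lt.mpr h)
      have e2 : inS S J v.1 (sr v) (soft J (z (v, m))) = 0 := by
        unfold inS; rw [if_neg]
        intro h1
        exact absurd (hS.sub J v.1 v.2.1 _ h1) (not_lt.mpr h)
      have e3 : tl D S z J v.1 (ns v) m = 0 := by
        apply tl_of_not
        rintro ⟨β', h1, h2, ⟨a, h3⟩, _⟩
        have h4 := hS.sub J v.1 β' 0 h2
        have h5 := D.lad_lt β' h1 a
        rw [← h3] at h5
        exact absurd (h5.trans h4) (not_lt.mpr h)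
      rw [e1, e2, e3]
      ring
    simp only [hev]
    rw [hv0 v h m]
    exact tendsto_const_nhds

end AL

theorem stmt_AL (hAS : Stmt_AS) (hExh : Stmt_Exh) (hTG : Stmt_TG) : Stmt_AL := by
  intro Ω _ D Y _ _ val hval z C βs hz hc hz0 hv0
  obtain ⟨S, hS⟩ := hExh Ω D z βs hc hz0
  have hC0 : 0 ≤ C := hz.nonneg ((0, βs, 0), 0)
  choose h hh' using fun J => hval.gen _ (AL.hh_GS hTG hS hz0 J)
  have hC' : (0 : ℝ) ≤ 13 * C + 1 := by linarith
  refine ⟨h, 13 * C + 1, ?_, ?_, ?_⟩
  · intro p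
    simp only [hh']
    exact AL.hh_lim hS hv0 p
  · intro J
    apply hval.le _ _ hC'
    have e : val (h J) = AL.gg D S z (fun i => J + i) 1 := by
      funext p
      rw [hh', ← AL.sum_hh]
      simp
    rw [e]
    exact AL.gg_bd1 hAS hS _ (fun a b hab => by simpa using hab) hz hC0
  · intro n c hn k hk
    apply hval.le _ _ (by positivity)
    have e : val (altsum h k (Kn n)) = AL.gg D S z k (Kn n) := by
      funext p
      rw [val_altsum, ← AL.sum_hh]
      simp only [hh']
    rw [e]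
    exact AL.gg_bd hAS hS k hk hz hC0 n c hn

end Pool.Agent.MP156639
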