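import Pool.Agent.Work.MP_156639_an.Interface
import Pool.Agent.Work.MP_156639_an.Basic

/-!
# MP_156639_an : block AS
-/

set_option autoImplicit false

open scoped BigOperators
open Filter Topology

namespace Pool.Agent.MP156639
namespace AS

/-- an alternating sum of a nonnegative nondecreasing sequence is bounded by its last term -/
lemma alt_le (D : ℕ → ℝ) (hD0 : ∀ i, 0 ≤ D i) (hD : Monotone D) (i₀ : ℕ) (t : ℕ) :
    |∑ i ∈ Finset.Ico i₀ (i₀ + t + 1), (-1 : ℝ) ^ i * D i| ≤ D (i₀ + t) ∧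
    0 ≤ (-1 : ℝ) ^ (i₀ + t) * ∑ i ∈ Finset.Ico i₀ (i₀ + t + 1), (-1 : ℝ) ^ i * D i := by
  have hsq : ∀ j : ℕ, (-1 : ℝ) ^ j * (-1 : ℝ) ^ j = 1 := by
    intro j; rw [← mul_pow]; simp
  have habs : ∀ (j : ℕ) (x : ℝ), |x| = |(-1 : ℝ) ^ j * x| := by
    intro j x; rw [abs_mul, abs_pow]; simp
  induction t with
  | zero =>
    simp only [add_zero, Nat.Ico_succ_singleton, Finset.sum_singleton]
    constructor
    · rw [← habs, abs_of_nonneg (hD0 _)]
    · rw [← mul_assoc, hsq, one_mul]; exact hD0 _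
  | succ t ih =>
    rw [show i₀ + (t + 1) + 1 = (i₀ + t + 1) + 1 by ring, show i₀ + (t + 1) = i₀ + t + 1 by ring,
      Finset.sum_Ico_succ_top (by omega)]
    set T0 := ∑ i ∈ Finset.Ico i₀ (i₀ + t + 1), (-1 : ℝ) ^ i * D i with hT0
    obtain ⟨h1, h2⟩ := ih
    have h3 : D (i₀ + t) ≤ D (i₀ + t + 1) := hD (Nat.le_succ _)
    rw [habs (i₀ + t), abs_of_nonneg h2] at h1
    have e : (-1 : ℝ) ^ (i₀ + t + 1) * (T0 + (-1 : ℝ) ^ (i₀ + t + 1) * D (i₀ + t + 1)) =
        D (i₀ + t + 1) - (-1 : ℝ) ^ (i₀ + t) * T0 := by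
      rw [mul_add, ← mul_assoc, hsq, one_mul, pow_succ]
      ring
    constructor
    · rw [habs (i₀ + t + 1), e, abs_of_nonneg (by linarith)]
      linarith
    · rw [e]; linarith

lemma clamp_diff_mono {e e' x y : ℝ} (he' : 0 ≤ e') (he : e' ≤ e) (hxy : y ≤ x) :
    max (-e') (min e' x) - max (-e') (min e' y) ≤ max (-e) (min e x) - max (-e) (min e y) := by
  rcases le_total e x with h1 | h1 <;> rcases le_total e y with h2 | h2 <;>
  rcases le_total e' x with h3 | h3 <;> rcases le_total e' y with h4 | h4 <;>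
  rcases le_total (-e) x with h5 | h5 <;> rcases le_total (-e) y with h6 | h6 <;>
  rcases le_total (-e') x with h7 | h7 <;> rcases le_total (-e') y with h8 | h8 <;>
  simp only [min_eq_left, min_eq_right, max_eq_left, max_eq_right, h1, h2, h3, h4, h5, h6, h7,
    h8, neg_le_self (he'.trans he), neg_le_self he'] <;> linarith

end AS

theorem stmt_AS : Stmt_AS := by
  intro J hJ i₀ i₁ x y
  wlog hxy : y ≤ x generalizing x y
  · have := this y x (le_of_not_ge hxy)
    rw [abs_sub_comm, abs_sub_comm (soft (J i₁) x)]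
    exact this
  rw [← Finset.sum_sub_distrib]
  have e : ∀ i, (-1 : ℝ) ^ i * soft (J i) x - (-1 : ℝ) ^ i * soft (J i) y =
      (-1 : ℝ) ^ i * (soft (J i) x - soft (J i) y) := fun i => by ring
  simp only [e]
  set E : ℕ → ℝ := fun i => soft (J i) x - soft (J i) y with hE
  have hmono : Monotone E := by
    apply monotone_nat_of_le_succ
    intro i
    simp only [hE]
    unfold soft
    have h1 : (J i : ℝ) + 1 ≤ (J (i + 1) : ℝ) + 1 := by
      have := (hJ (Nat.lt_succ_self i)).le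
      have h2 : (J i : ℝ) ≤ (J (i + 1) : ℝ) := by exact_mod_cast this
      linarith
    have h2 : 1 / ((J (i + 1) : ℝ) + 1) ≤ 1 / ((J i : ℝ) + 1) :=
      one_div_le_one_div_of_le (by positivity) h1
    have h3 := AS.clamp_diff_mono (by positivity : (0:ℝ) ≤ 1 / ((J (i + 1) : ℝ) + 1)) h2 hxy
    linarith
  have h0 : ∀ i, 0 ≤ E i := by
    intro i
    simp only [hE]
    unfold soft
    have h2 : (0:ℝ) ≤ 1 / ((J i : ℝ) + 1) := by positivity
    -- compare with a large threshold
    have h3 := AS.clamp_diff_mono h2 (le_max_left (1 / ((J i : ℝ) + 1)) (max |x| |y|)) hxy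
    set M := max (1 / ((J i : ℝ) + 1)) (max |x| |y|) with hM
    have hMx : |x| ≤ M := (le_max_left _ _).trans (le_max_right _ _)
    have hMy : |y| ≤ M := (le_max_right _ _).trans (le_max_right _ _)
    rw [abs_le] at hMx hMy
    rw [min_eq_right hMx.2, min_eq_right hMy.2, max_eq_right hMx.1, max_eq_right hMy.1] at h3
    linarith
  rcases lt_or_ge i₁ i₀ with h | h
  · rw [Finset.Ico_eq_empty (by omega), Finset.sum_empty, abs_zero]
    exact abs_nonneg _
  · obtain ⟨t, rfl⟩ := Nat.exists_eq_add_of_le h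
    have h1 := (AS.alt_le E h0 hmono i₀ t).1
    refine h1.trans (le_abs_self _)

end Pool.Agent.MP156639
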