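import Pool.Agent.Work.MP_156639_an_helper43.H23N

/-!
# MP_156639_an, block MUL: the symbol of a projection takes the values 0 and 1
-/

set_option autoImplicit false

open scoped BigOperators
open Filter Topology

namespace Pool.Agent.MP156639

theorem ind_abs_le23 (k m : ℕ) : |ind k m| ≤ 1 := by
  unfold ind
  split_ifs <;> norm_num

theorem ind_TVle (k : ℕ) : TVle 1 (ind k) := by
  have := TVle.of_initial (P := fun m => m < k) fun a b hab hb => lt_of_le_of_lt hab hb
  exact this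

theorem ind_tendsto (m : ℕ) : Tendsto (fun k => ind k m) atTop (𝓝 1) := by
  apply tendsto_const_nhds.congr'
  filter_upwards [eventually_gt_atTop m] with k hk
  unfold ind
  rw [if_pos hk]

theorem ind_zero_of_le {k m : ℕ} (h : k ≤ m) : ind k m = 0 := by
  unfold ind
  rw [if_neg (by omega)]

section
variable {Ω : Type} [LinearOrder Ω] {D : LD Ω} {Y : Type} [NormedAddCommGroup Y] [NormedSpace ℝ Y]
  {val : Y →ₗ[ℝ] (Pt Ω → ℝ)}

theorem LD.IsSp.abs_val_le (h : D.IsSp val) (y : Y) (p : Pt Ω) : |val y p| ≤ ‖y‖ := (h.bd y).pt p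

/-- evaluation at a point as a continuous functional -/
noncomputable def LD.IsSp.evalAt (h : D.IsSp val) (p : Pt Ω) : Y →L[ℝ] ℝ :=
  LinearMap.mkContinuous ((LinearMap.proj p).comp val) 1 (fun y => by
    rw [one_mul, Real.norm_eq_abs]
    exact h.abs_val_le y p)

theorem LD.IsSp.evalAt_apply (h : D.IsSp val) (p : Pt Ω) (y : Y) : h.evalAt p y = val y p := rfl

theorem exists_steps23 (hTG : Stmt_TG) (h : D.IsSp val) {ψ : Vx Ω → ℝ} (hψ : ψ ∈ D.SS) :
    ∃ e : ℕ → Y, Steps val ψ e := by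
  have h1 : ∀ k, ∃ y, val y = tens ψ (ind k) := fun k =>
    h.gen _ (hTG Ω D ψ hψ (ind k) ⟨k, fun m hm => ind_zero_of_le hm⟩)
  choose e he using h1
  exact ⟨e, he⟩

theorem steps_norm_le23 (h : D.IsSp val) {C : ℝ} (hC : 0 ≤ C) {ψ : Vx Ω → ℝ} (hψ : D.Nice C ψ)
    {e : ℕ → Y} (he : Steps val ψ e) (k : ℕ) : ‖e k‖ ≤ C := by
  refine h.le (e k) C hC ?_
  rw [he k]
  refine stmt_BT Ω D C 1 C ψ (ind k) hψ (ind_abs_le23 k) (ind_TVle k) le_rfl ?_
  intro n c _
  right; left
  have := one_le_th23 n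
  nlinarith

/-- labels are taken infinitely often -/
theorem exists_label (c B : ℕ) : ∃ n ≥ B, label n = some c := by
  refine ⟨Nat.pair (c + 1) B, Nat.right_le_pair _ _, ?_⟩
  unfold label
  rw [Nat.unpair_pair]

theorem altsum_map (P : Y →L[ℝ] Y) (y : ℕ → Y) (k : ℕ → ℕ) (K : ℕ) :
    P (altsum y k K) = altsum (fun j => P (y j)) k K := by
  unfold altsum
  rw [map_sum]
  apply Finset.sum_congr rfl
  intro i _
  rw [map_smul]

theorem Rn_eq23 (n : ℕ) : (Rn n : ℝ) = ((n : ℝ) + 1) * (Rp n : ℝ) := by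
  unfold Rn Rp
  rw [Nat.factorial_succ]
  push_cast
  ring

theorem Rp_pos23 (n : ℕ) : (0 : ℝ) < (Rp n : ℝ) := by
  unfold Rp
  exact_mod_cast Nat.factorial_pos n

/-- If the growth of the alternating sums at infinitely many scales is at most `Rp`, then the
limit is zero. -/
theorem limit_eq_zero_of_growth {L B : ℝ} (c d : ℕ)
    (h : ∀ n, label n = some c → d ≤ n → |L| / 2 * (Rn n : ℝ) ≤ B * (Rp n : ℝ)) : L = 0 := by
  by_contra hL
  have hL' : 0 < |L| := abs_pos.2 hL
  obtain ⟨n₀, hn₀⟩ := exists_nat_gt (2 * B / |L|)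
  obtain ⟨n, hn, hlab⟩ := exists_label c (max d n₀)
  have h1 := h n hlab (le_trans (le_max_left _ _) hn)
  rw [Rn_eq23, ← mul_assoc] at h1
  have h2 : |L| / 2 * ((n : ℝ) + 1) ≤ B := le_of_mul_le_mul_right h1 (Rp_pos23 n)
  have h3 : (n₀ : ℝ) ≤ (n : ℝ) := by exact_mod_cast le_trans (le_max_right _ _) hn
  rw [div_lt_iff₀ hL'] at hn₀
  nlinarith

end

/-- Block MUL. -/
theorem stmt_MUL (hCV : Stmt_CV) (hBdLim : Stmt_BdLim) (hAL : Stmt_AL) (hW : Stmt_W)
    (hINT : Stmt_INT) : Stmt_MUL := by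
  classical
  intro Ω _ D Y _ _ val hval P Λ βs hsym hPP hcount hvan v₀ hv₀
  set ψ : Vx Ω → ℝ := fun w => if w = v₀ then 1 else 0 with hψdef
  have hψ : ψ ∈ D.SS := Submodule.subset_span (Or.inl ⟨v₀, hv₀, rfl⟩)
  obtain ⟨e, he⟩ := exists_steps23 stmt_TG hval hψ
  obtain ⟨C₀, hC₀, hnice⟩ := stmt_Nice Ω D ψ hψ
  have henorm : ∀ k, ‖e k‖ ≤ C₀ := steps_norm_le23 hval hC₀ hnice he
  obtain ⟨z, hz⟩ := hCV Ω D Y val hval ψ hψ e he P
  have hzlim := hsym ψ hψ e he z hz
  set lam := Λ v₀ with hlam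
  have hψv₀ : ψ v₀ = 1 := by rw [hψdef]; simp
  have hzv₀ : Tendsto (fun m => z (v₀, m)) atTop (𝓝 lam) := by
    have := hzlim v₀
    rwa [hψv₀, one_mul] at this
  -- z vanishes on the late blocks
  have hzvan : ∀ v : Vx Ω, βs ≤ v.2.1 → ∀ m, z (v, m) = 0 := by
    intro v hv m
    have h1 := hz (v, m)
    have h2 : (fun k => val (P (e k)) (v, m)) = fun _ => 0 := by
      funext k
      exact hvan (e k) v hv m
    simp only [h2] at h1
    exact tendsto_nhds_unique h1 tendsto_const_nhds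
  by_cases hblock : βs ≤ v₀.2.1
  · left
    have h1 : (fun m => z (v₀, m)) = fun _ => 0 := by
      funext m
      exact hzvan v₀ hblock m
    rw [h1] at hzv₀
    exact tendsto_nhds_unique hzv₀ tendsto_const_nhds
  -- the corrected sequence
  set u : ℕ → Y := fun k => P (e k) - lam • e k with hu
  set z₀ : Pt Ω → ℝ := fun p => z p - lam * ψ p.1 with hz₀
  have huz₀ : PtLim val u z₀ := by
    intro p
    have h1 := hz p
    have h2 : Tendsto (fun k => lam * (ψ p.1 * ind k p.2)) atTop (𝓝 (lam * (ψ p.1 * 1))) :=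
      ((ind_tendsto p.2).const_mul _).const_mul _
    have h3 := h1.sub h2
    rw [mul_one] at h3
    refine h3.congr ?_
    intro k
    rw [hu]
    simp only [map_sub, map_smul, Pi.sub_apply, Pi.smul_apply, smul_eq_mul]
    rw [he k]
    rfl
  have hunorm : ∀ k, ‖u k‖ ≤ ‖P‖ * C₀ + |lam| * C₀ := by
    intro k
    calc ‖P (e k) - lam • e k‖ ≤ ‖P (e k)‖ + ‖lam • e k‖ := norm_sub_le _ _
      _ ≤ ‖P‖ * C₀ + |lam| * C₀ := by
          apply add_le_add
          · exact (P.le_opNorm _).trans (mul_le_mul_of_nonneg_left (henorm k) (norm_nonneg _))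
          · rw [norm_smul, Real.norm_eq_abs]
            exact mul_le_mul_of_nonneg_left (henorm k) (abs_nonneg _)
  have hBd := hBdLim Ω D Y val hval u z₀ huz₀ _ hunorm
  have hfib : ∀ v, Tendsto (fun m => z₀ (v, m)) atTop (𝓝 0) := by
    intro v
    have h1 := hzlim v
    have h2 := h1.sub_const (lam * ψ v)
    have h3 : ψ v * Λ v - lam * ψ v = 0 := by
      by_cases hv : v = v₀
      · rw [hv, hψv₀]; ring
      · have : ψ v = 0 := by rw [hψdef]; simp [hv]
        rw [this]; ring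
    rw [h3] at h2
    exact h2
  have hz₀van : ∀ v : Vx Ω, βs ≤ v.2.1 → ∀ m, z₀ (v, m) = 0 := by
    intro v hv m
    rw [hz₀]
    have h1 : v ≠ v₀ := by
      rintro rfl
      exact hblock hv
    have h2 : ψ v = 0 := by rw [hψdef]; simp [h1]
    simp only [hzvan v hv m, h2]
    ring
  obtain ⟨h, C', hhz, hhn, hhalt⟩ := hAL Ω D Y val hval z₀ _ βs hBd hcount hfib hz₀van
  -- lemma W
  have hwnull : ∀ p, Tendsto (fun k => val (u k - h k) p) atTop (𝓝 0) := by
    intro p
    have h1 := (huz₀ p).sub (hhz p)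
    rw [sub_self] at h1
    refine h1.congr ?_
    intro k
    simp
  have hPh : ∀ p, Tendsto (fun k => val (P (h k)) p) atTop (𝓝 ((1 - lam) * z p)) := by
    intro p
    have h1 := hW Ω D Y val hval (fun k => u k - h k)
      ⟨(‖P‖ * C₀ + |lam| * C₀) + C', fun k => (norm_sub_le _ _).trans (add_le_add (hunorm k) (hhn k))⟩
      hwnull ((hval.evalAt p).comp P)
    have h2 : Tendsto (fun k => (1 - lam) * val (P (e k)) p) atTop (𝓝 ((1 - lam) * z p)) :=
      (hz p).const_mul _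
    have h3 := h2.sub h1
    rw [sub_zero] at h3
    refine h3.congr ?_
    intro k
    change (1 - lam) * val (P (e k)) p - val (P (u k - h k)) p = _
    rw [hu]
    simp only [map_sub, map_smul, Pi.sub_apply, Pi.smul_apply, smul_eq_mul, hPP]
    ring
  -- interlacing
  obtain ⟨c, hc, -⟩ := D.sep1 v₀ (v₀.1 + 1, v₀.2) (by
    intro hcon
    have := congrArg Prod.fst hcon
    simp at this)
  have hL : (1 - lam) * lam = 0 := by
    refine limit_eq_zero_of_growth (B := ‖P‖ * C') c (D.depv v₀) ?_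
    intro n hn hdn
    obtain ⟨k, hk, hkb⟩ := hINT Ω D Y val hval (fun k => P (h k)) v₀
      (fun m => (1 - lam) * z (v₀, m)) ((1 - lam) * lam) (fun m => hPh (v₀, m))
      (hzv₀.const_mul _) n c hn hc hdn
    refine hkb.trans ?_
    rw [← altsum_map, mul_assoc]
    exact (P.le_opNorm _).trans (mul_le_mul_of_nonneg_left (hhalt n c hn k hk) (norm_nonneg _))
  rcases mul_eq_zero.1 hL with h1 | h1
  · right; linarith
  · left; exact h1

end Pool.Agent.MP156639
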