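import Pool.Agent.Work.MP_156639_an_helper43.H23Mul

/-!
# MP_156639_an, block FIN: the space `Y` fails the separable complementation property
-/

set_option autoImplicit false

open scoped BigOperators
open Filter Topology

namespace Pool.Agent.MP156639

/-- Block FIN. -/
theorem stmt_NoSCP (hO4 : Stmt_O4) (hCV : Stmt_CV) (hLOC : Stmt_LOC) (hLK : Stmt_LK)
    (hMUL : Stmt_MUL) : Stmt_NoSCP := by
  classical
  intro Ω _ _ D hcount hunc Y _ _ val hval
  -- the first block
  have hne : Nonempty Ω := by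
    by_contra h
    rw [not_nonempty_iff] at h
    exact hunc (Set.to_countable _)
  obtain ⟨b₀, hb₀⟩ : ∃ b₀ : Ω, ∀ b, b₀ ≤ b := by
    refine ⟨wellFounded_lt.min (Set.univ : Set Ω) ⟨hne.some, trivial⟩, fun b => ?_⟩
    exact not_lt.1 (wellFounded_lt.not_lt_min (Set.univ : Set Ω) (Set.mem_univ b))
  have hb₀' : ¬ NonMin b₀ := by
    rintro ⟨b', hb'⟩
    exact absurd hb' (not_lt.2 (hb₀ b'))
  have hδ : ∀ v : Vx Ω, ¬ Lim v → (fun w : Vx Ω => if w = v then (1 : ℝ) else 0) ∈ D.SS :=
    fun v hv => Submodule.subset_span (Or.inl ⟨v, hv, rfl⟩)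
  have hl : ∀ N : ℕ, ¬ Lim ((N, b₀, 0) : Vx Ω) := fun N h => hb₀' h.2
  have hex : ∀ N : ℕ, ∃ e : ℕ → Y, Steps val (fun w : Vx Ω => if w = (N, b₀, 0) then (1 : ℝ) else 0) e :=
    fun N => exists_steps23 stmt_TG hval (hδ _ (hl N))
  choose e he using hex
  refine ⟨Submodule.span ℝ (Set.range fun q : ℕ × ℕ => e q.1 q.2), ?_, ?_⟩
  · have h1 : TopologicalSpace.IsSeparable (Set.range fun q : ℕ × ℕ => e q.1 q.2) :=
      (Set.countable_range _).isSeparable
    exact h1.span (R := ℝ)
  intro T hST hTsep hTc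
  obtain ⟨p, hp⟩ := hTc
  set P : Y →L[ℝ] Y := T.subtypeL.comp p with hP
  have hPmem : ∀ y, P y ∈ T := fun y => (p y).2
  have hPfix : ∀ y ∈ T, P y = y := by
    intro y hy
    have := hp ⟨y, hy⟩
    rw [hP]
    change ((p y : T) : Y) = y
    rw [this]
  have hPP : ∀ y, P (P y) = P y := fun y => hPfix _ (hPmem y)
  obtain ⟨Λ, hsym⟩ := hLOC Ω D Y val hval P
  obtain ⟨βs, hβs⟩ := hO4 Ω D hcount hunc Y val hval (T : Set Y) hTsep
  have hval01 := hMUL Ω D Y val hval P Λ βs hsym hPP (hcount βs)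
    (fun y v hv m => hβs (P y) (hPmem y) v hv m)
  obtain ⟨hlink, hlad⟩ := hLK Ω D Y val hval P Λ hsym
  obtain ⟨N, hN⟩ := exists_nat_gt (8 * ‖P‖)
  -- the symbol is 1 at the start
  have hstart : Λ (N, b₀, 0) = 1 := by
    have h1 : PtLim val (fun k => P (e N k))
        (fun p => if p.1 = ((N, b₀, 0) : Vx Ω) then (1 : ℝ) else 0) := by
      intro q
      have h2 : ∀ k, val (P (e N k)) q = (if q.1 = ((N, b₀, 0) : Vx Ω) then (1 : ℝ) else 0) *
          ind k q.2 := by
        intro k
        rw [hPfix (e N k) (hST (Submodule.subset_span ⟨(N, k), rfl⟩)), he N k]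
        rfl
      have h3 : Tendsto (fun k => (if q.1 = ((N, b₀, 0) : Vx Ω) then (1 : ℝ) else 0) * ind k q.2)
          atTop (𝓝 ((if q.1 = ((N, b₀, 0) : Vx Ω) then (1 : ℝ) else 0) * 1)) :=
        (ind_tendsto q.2).const_mul _
      rw [mul_one] at h3
      exact h3.congr fun k => (h2 k).symm
    have h4 := hsym _ (hδ _ (hl N)) (e N) (he N) _ h1 (N, b₀, 0)
    simp only [if_true, one_mul] at h4
    exact (tendsto_nhds_unique h4 tendsto_const_nhds)
  -- adjacent values
  have hadj : ∀ (β : Ω) (l : ℕ), Λ (N, β, l) = 1 → Λ (N, β, l + 1) = 1 := by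
    intro β l h1
    have h2 : ¬ Lim ((N, β, l + 1) : Vx Ω) := fun h => by
      have := h.1
      simp at this
    rcases hval01 _ h2 with h3 | h3
    · exfalso
      have h4 := hlink N β l
      rw [h1, h3, sub_zero, abs_one, mul_one] at h4
      linarith
    · exact h3
  have hall : ∀ β : Ω, ∀ l : ℕ, Λ (N, β, l) = 1 := by
    intro β
    induction β using WellFoundedLT.induction with
    | ind β ih =>
      have h0 : Λ (N, β, 0) = 1 := by
        by_cases hβ : NonMin β
        · have h1 := hlad N β hβ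
          have h2 : (fun a => Λ (st N (D.lad β a))) = fun _ => 1 := by
            funext a
            exact ih _ (D.lad_lt β hβ a) _
          rw [h2] at h1
          exact (tendsto_nhds_unique h1 tendsto_const_nhds)
        · have h1 : β = b₀ := by
            by_contra hne'
            exact hβ ⟨b₀, lt_of_le_of_ne (hb₀ β) (Ne.symm hne')⟩
          rw [h1]; exact hstart
      intro l
      induction l with
      | zero => exact h0
      | succ l ihl => exact hadj β l ihl
  -- contradiction at `βs`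
  have hv : ¬ Lim ((N, βs, 1) : Vx Ω) := fun h => by
    have := h.1
    simp at this
  obtain ⟨e', he'⟩ := exists_steps23 stmt_TG hval (hδ _ hv)
  obtain ⟨z, hz⟩ := hCV Ω D Y val hval _ (hδ _ hv) e' he' P
  have h1 := hsym _ (hδ _ hv) e' he' z hz (N, βs, 1)
  have h2 : ∀ m, z ((N, βs, 1), m) = 0 := by
    intro m
    have h3 := hz ((N, βs, 1), m)
    have h4 : (fun k => val (P (e' k)) ((N, βs, 1), m)) = fun _ => 0 := by
      funext k
      exact hβs (P (e' k)) (hPmem _) _ le_rfl m
    simp only [h4] at h3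
    exact tendsto_nhds_unique h3 tendsto_const_nhds
  simp only [h2, if_true, one_mul, hall βs 1] at h1
  exact zero_ne_one (tendsto_nhds_unique tendsto_const_nhds h1)

end Pool.Agent.MP156639
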