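import Pool.Agent.Work.MP_156639_an.Interface
import Pool.Agent.Work.MP_156639_an_helper10.UL
import Pool.Agent.Work.MP_156639_an_helper10.LOC
import Pool.Agent.Work.MP_156639_an_helper43.H23N
import Pool.Agent.Work.MP_156639_an_helper43.H23Mul
import Pool.Agent.Work.MP_156639_an_helper43.H23NoSCP
import Pool.Agent.Work.MP_156639_an_helper30.CV
import Pool.Agent.Work.MP_156639_an_helper30.HAT
import Pool.Agent.Work.MP_156639_an_helper30.INT
import Pool.Agent.Work.MP_156639_an_helper30.LK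
import Pool.Agent.Work.MP_156639_an_helper38.JRZ
import Pool.Agent.Work.MP_156639_an_helper38.SP
import Pool.Agent.Work.MP_156639_an_helper38.STAR
import Pool.Agent.Work.MP_156639_an_helper43.AL4
import Pool.Agent.Work.MP_156639_an_helper43.AS
import Pool.Agent.Work.MP_156639_an_helper72.O13
import Pool.Agent.Work.MP_156639_an_helper72.O45
import Pool.Agent.Work.MP_156639_an_helper72.EXH
import Pool.Agent.Work.MP_156639_an_helper73.LD
import Pool.Agent.Work.MP_156639_an_helper73.W
import Pool.Agent.Work.MP_156639_an_helper73.W1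
import Pool.Agent.Work.MP_156639_an_helper73.W2

set_option autoImplicit false

namespace Pool.Agent.MP156639

theorem final : Final := by
  have hO1 : Stmt_O1 := stmt_O1
  have hO2 : Stmt_O2 := stmt_O2
  have hO3 : Stmt_O3 := stmt_O3 stmt_Nice
  have hALT : Stmt_ALT := stmt_ALT stmt_BT
  have hUL : Stmt_UL := ULh.stmt_UL stmt_Nice hALT hO2
  have hCV : Stmt_CV := stmt_CV stmt_Nice stmt_BT
  have hINT : Stmt_INT := stmt_INT hO1
  have hW : Stmt_W := stmt_W hO3 stmt_W1 (stmt_W2 stmt_O5)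
  have hAL : Stmt_AL := stmt_AL stmt_AS stmt_Exh stmt_TG
  have hLOC : Stmt_LOC := LOCh.stmt_LOC stmt_Nice hALT hINT stmt_TG stmt_BT hCV stmt_BdLim stmt_FL
  have hMUL : Stmt_MUL := stmt_MUL hCV stmt_BdLim hAL hW hINT
  have hLK : Stmt_LK := stmt_LK stmt_Hat stmt_TG stmt_BT hCV hUL
  exact assembly stmt_LD (stmt_Sp stmt_Nice stmt_BT) (stmt_STAR stmt_O4)
    (stmt_NoSCP stmt_O4 hCV hLOC hLK hMUL) stmt_JRZ

end Pool.Agent.MP156639
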