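import Pool.Agent.Work.MP_156639_an.Interface
import Pool.Agent.Work.MP_156639_an.Basic

/-!
# MP_156639_an : block AL, part 1 (soft thresholds, alternating sums over intervals)
-/

set_option autoImplicit false

open scoped BigOperators
open Filter Topology

namespace Pool.Agent.MP156639
namespace AL

/-! ## soft thresholds -/

lemma clamp_lip (e x y : ℝ) : |max (-e) (min e x) - max (-e) (min e y)| ≤ |x - y| := by
  refine (abs_max_sub_max_le_max _ _ _ _).trans ?_
  simp only [sub_self, abs_zero]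
  apply max_le (abs_nonneg _)
  refine (abs_min_sub_min_le_max _ _ _ _).trans ?_
  simp

lemma soft_zero (J : ℕ) : soft J 0 = 0 := by
  unfold soft
  have h : (0 : ℝ) < 1 / ((J : ℝ) + 1) := by positivity
  rw [min_eq_right h.le, max_eq_right (by linarith)]
  ring

lemma soft_mono (J : ℕ) : Monotone (soft J) := by
  intro x y hxy
  unfold soft
  have h : (0 : ℝ) < 1 / ((J : ℝ) + 1) := by positivity
  set e := 1 / ((J : ℝ) + 1)
  rcases le_total e x with h1 | h1 <;> rcases le_total e y with h2 | h2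
  · rw [min_eq_left h1, min_eq_left h2]; linarith
  · rw [min_eq_left h1, min_eq_right h2]
    have : x = y := le_antisymm hxy (h2.trans h1)
    have h3 : e = y := le_antisymm (by linarith) h2
    rw [h3, this]
  · rw [min_eq_right h1, min_eq_left h2]
    rcases le_total (-e) x with h3 | h3
    · rw [max_eq_right h3, max_eq_right (by linarith)]; linarith
    · rw [max_eq_left h3, max_eq_right (by linarith)]; linarith
  · rw [min_eq_right h1, min_eq_right h2]
    rcases le_total (-e) x with h3 | h3 <;> rcases le_total (-e) y with h4 | h4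
    · rw [max_eq_right h3, max_eq_right h4]; linarith
    · rw [max_eq_right h3, max_eq_left h4]; linarith
    · rw [max_eq_left h3, max_eq_right h4]; linarith
    · rw [max_eq_left h3, max_eq_left h4]; linarith

lemma clamp_mono (e : ℝ) : Monotone (fun x : ℝ => max (-e) (min e x)) := by
  intro x y hxy
  exact max_le_max le_rfl (min_le_min le_rfl hxy)

lemma soft_lip (J : ℕ) (x y : ℝ) : |soft J x - soft J y| ≤ |x - y| := by
  wlog h : y ≤ x generalizing x y
  · rw [abs_sub_comm, abs_sub_comm x y]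
    exact this y x (le_of_not_ge h)
  rw [abs_of_nonneg (sub_nonneg.mpr (soft_mono J h)), abs_of_nonneg (sub_nonneg.mpr h)]
  unfold soft
  have := clamp_mono (1 / ((J : ℝ) + 1)) h
  simp only at this
  linarith

lemma soft_abs_le (J : ℕ) (x : ℝ) : |soft J x| ≤ |x| := by
  have := soft_lip J x 0
  rwa [soft_zero, sub_zero, sub_zero] at this

lemma soft_near (J : ℕ) (x : ℝ) : |soft J x - x| ≤ 1 / ((J : ℝ) + 1) := by
  unfold soft
  have h : (0 : ℝ) < 1 / ((J : ℝ) + 1) := by positivity
  set e := 1 / ((J : ℝ) + 1)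
  rw [show x - max (-e) (min e x) - x = -(max (-e) (min e x)) by ring, abs_neg, abs_le]
  exact ⟨le_max_left _ _, max_le (by linarith) (min_le_left _ _)⟩

lemma soft_eq_zero (J : ℕ) (x : ℝ) (h : |x| ≤ 1 / ((J : ℝ) + 1)) : soft J x = 0 := by
  unfold soft
  rw [abs_le] at h
  rw [min_eq_right h.2, max_eq_right h.1]
  ring

/-- intervals cut out by two monotone predicates -/
lemma interval (A B : ℕ → Prop) (hA : ∀ i j, i ≤ j → A i → A j) (hB : ∀ i j, i ≤ j → B i → B j)
    (K : ℕ) : ∃ i₀ i₁, ∀ i < K, (A i ∧ ¬ B i) ↔ (i₀ ≤ i ∧ i < i₁) := by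
  classical
  by_cases h1 : ∃ i, A i
  · by_cases h2 : ∃ i, B i
    · refine ⟨Nat.find h1, Nat.find h2, ?_⟩
      intro i _
      constructor
      · rintro ⟨h3, h4⟩
        refine ⟨Nat.find_min' h1 h3, ?_⟩
        by_contra h5
        exact h4 (hB _ _ (not_lt.mp h5) (Nat.find_spec h2))
      · rintro ⟨h3, h4⟩
        exact ⟨hA _ _ h3 (Nat.find_spec h1), Nat.find_min h2 h4⟩
    · refine ⟨Nat.find h1, K, ?_⟩
      intro i hi
      constructor
      · rintro ⟨h3, h4⟩
        exact ⟨Nat.find_min' h1 h3, hi⟩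
      · rintro ⟨h3, h4⟩
        exact ⟨hA _ _ h3 (Nat.find_spec h1), fun h => h2 ⟨i, h⟩⟩
  · refine ⟨K, 0, ?_⟩
    intro i hi
    constructor
    · rintro ⟨h3, h4⟩; exact absurd ⟨i, h3⟩ h1
    · rintro ⟨h3, h4⟩; omega

open Classical in
/-- alternating sums of soft thresholds over an interval -/
lemma alt_interval (hAS : Stmt_AS) (k : ℕ → ℕ) (hk : StrictMono k) (K : ℕ) (P : ℕ → Prop)
    (hP : ∃ i₀ i₁, ∀ i < K, P i ↔ (i₀ ≤ i ∧ i < i₁)) :
    (∀ x : ℝ, ∑ i ∈ Finset.range K, (-1 : ℝ) ^ i * (if P i then soft (k i) x else 0) = 0) ∨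
    ∃ i < K, P i ∧ ∀ x y : ℝ,
      |∑ i ∈ Finset.range K, (-1 : ℝ) ^ i * (if P i then soft (k i) x else 0)
        - ∑ i ∈ Finset.range K, (-1 : ℝ) ^ i * (if P i then soft (k i) y else 0)|
      ≤ |soft (k i) x - soft (k i) y| := by
  obtain ⟨i₀, i₁, h⟩ := hP
  have key : ∀ x : ℝ, ∑ i ∈ Finset.range K, (-1 : ℝ) ^ i * (if P i then soft (k i) x else 0) =
      ∑ i ∈ Finset.Ico i₀ (min i₁ K), (-1 : ℝ) ^ i * soft (k i) x := by
    intro x
    have e : Finset.Ico i₀ (min i₁ K) = (Finset.range K).filter P := by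
      ext i
      simp only [Finset.mem_Ico, Finset.mem_filter, Finset.mem_range, lt_min_iff]
      constructor
      · rintro ⟨h1, h2, h3⟩
        exact ⟨h3, (h i h3).mpr ⟨h1, h2⟩⟩
      · rintro ⟨h1, h2⟩
        have := (h i h1).mp h2
        exact ⟨this.1, this.2, h1⟩
    rw [e, Finset.sum_filter]
    apply Finset.sum_congr rfl
    intro i _
    split_ifs
    · rfl
    · ring
  by_cases hne : i₀ < min i₁ K
  · right
    have hlt : min i₁ K - 1 < K := by omega
    refine ⟨min i₁ K - 1, hlt, (h _ hlt).mpr ⟨by omega, by omega⟩, ?_⟩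
    intro x y
    rw [key, key]
    have e : min i₁ K = (min i₁ K - 1) + 1 := by omega
    have := hAS k hk i₀ (min i₁ K - 1) x y
    rwa [← e] at this
  · left
    intro x
    rw [key, Finset.Ico_eq_empty hne, Finset.sum_empty]

end AL
end Pool.Agent.MP156639
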