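import Pool.Agent.Work.MP_156639_an_helper43.AL1

/-!
# MP_156639_an : block AL, part 2 (the approximating functions)
-/

set_option autoImplicit false

open scoped BigOperators
open Filter Topology

namespace Pool.Agent.MP156639
namespace AL

variable {Ω : Type} [LinearOrder Ω]

/-- the limit vertex of the block `β` is active at the station `s` at level `J` -/
def Act (D : LD Ω) (S : ℕ → Set (ℕ × Ω × ℕ)) (J N : ℕ) (s : Ω × ℕ) (β : Ω) : Prop :=
  NonMin β ∧ (N, β, 0) ∈ S J ∧ (∃ a, s = D.lad β a) ∧ (N, s) ∉ S J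

open Classical in
/-- tail coefficient of the station `s` -/
noncomputable def tl (D : LD Ω) (S : ℕ → Set (ℕ × Ω × ℕ)) (z : Pt Ω → ℝ) (J N : ℕ) (s : Ω × ℕ)
    (m : ℕ) : ℝ :=
  if h : ∃ β, Act D S J N s β then soft J (z ((N, h.choose, 0), m)) else 0

open Classical in
noncomputable def inS (S : ℕ → Set (ℕ × Ω × ℕ)) (J N : ℕ) (s : Ω × ℕ) (x : ℝ) : ℝ :=
  if (N, s) ∈ S J then x else 0

/-- the fractional part of the position -/
noncomputable def fr (v : Vx Ω) : ℝ :=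
  ((v.2.2 % (2 * (v.1 + 1)) : ℕ) : ℝ) / (2 * ((v.1 : ℝ) + 1))

/-- left station -/
def sl (v : Vx Ω) : Ω × ℕ := (v.2.1, v.2.2 / (2 * (v.1 + 1)))

/-- right station -/
def sr (v : Vx Ω) : Ω × ℕ := (v.2.1, v.2.2 / (2 * (v.1 + 1)) + 1)

noncomputable def hh (D : LD Ω) (S : ℕ → Set (ℕ × Ω × ℕ)) (z : Pt Ω → ℝ) (J : ℕ) (p : Pt Ω) : ℝ :=
  (1 - fr p.1) * inS S J p.1.1 (sl p.1) (soft J (z p)) +
    fr p.1 * inS S J p.1.1 (sr p.1) (soft J (z p)) +
    tent p.1.1 p.1.2.2 * tl D S z J p.1.1 (ns p.1) p.2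

noncomputable def aa (S : ℕ → Set (ℕ × Ω × ℕ)) (k : ℕ → ℕ) (K N : ℕ) (s : Ω × ℕ) (x : ℝ) : ℝ :=
  ∑ i ∈ Finset.range K, (-1 : ℝ) ^ i * inS S (k i) N s (soft (k i) x)

noncomputable def bb (D : LD Ω) (S : ℕ → Set (ℕ × Ω × ℕ)) (z : Pt Ω → ℝ) (k : ℕ → ℕ) (K N : ℕ)
    (s : Ω × ℕ) (m : ℕ) : ℝ :=
  ∑ i ∈ Finset.range K, (-1 : ℝ) ^ i * tl D S z (k i) N s m

noncomputable def gg (D : LD Ω) (S : ℕ → Set (ℕ × Ω × ℕ)) (z : Pt Ω → ℝ) (k : ℕ → ℕ) (K : ℕ)
    (p : Pt Ω) : ℝ :=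
  (1 - fr p.1) * aa S k K p.1.1 (sl p.1) (z p) + fr p.1 * aa S k K p.1.1 (sr p.1) (z p) +
    tent p.1.1 p.1.2.2 * bb D S z k K p.1.1 (ns p.1) p.2

variable {D : LD Ω} {S : ℕ → Set (ℕ × Ω × ℕ)} {z : Pt Ω → ℝ} {βs : Ω}

omit [LinearOrder Ω] in
lemma fr_nonneg (v : Vx Ω) : 0 ≤ fr v := by unfold fr; positivity

omit [LinearOrder Ω] in
lemma fr_le_one (v : Vx Ω) : fr v ≤ 1 := by
  unfold fr
  rw [div_le_one (by positivity)]
  have : v.2.2 % (2 * (v.1 + 1)) ≤ 2 * (v.1 + 1) := (Nat.mod_lt _ (by omega)).le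
  exact_mod_cast this

lemma sum_hh (k : ℕ → ℕ) (K : ℕ) (p : Pt Ω) :
    ∑ i ∈ Finset.range K, (-1 : ℝ) ^ i * hh D S z (k i) p = gg D S z k K p := by
  unfold hh gg aa bb
  rw [Finset.mul_sum, Finset.mul_sum, Finset.mul_sum, ← Finset.sum_add_distrib,
    ← Finset.sum_add_distrib]
  apply Finset.sum_congr rfl
  intro i _
  ring

/-! ## activity -/

lemma Act.unique (hS : Exh D z βs S) {J N : ℕ} {s : Ω × ℕ} {β β' : Ω} (h : Act D S J N s β)
    (h' : Act D S J N s β') : β = β' := by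
  obtain ⟨h1, h2, ⟨a, h3⟩, h4⟩ := h
  obtain ⟨h1', h2', ⟨a', h3'⟩, h4'⟩ := h'
  by_contra hne
  have h5 := D.lad_tree β β' h1 h1' a a' (h3.symm.trans h3')
  have h6 := h5.1
  subst h6
  apply h4
  rw [h3]
  exact hS.shared J N β β' h1 h1' hne h2 h2' a (h3.symm.trans h3')

lemma Act.mono (hS : Exh D z βs S) {J J' N : ℕ} {s : Ω × ℕ} {β : Ω} (hJ : J ≤ J')
    (h : Act D S J N s β) (h' : (N, s) ∉ S J') : Act D S J' N s β :=
  ⟨h.1, hS.mono hJ h.2.1, h.2.2.1, h'⟩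

lemma Act.unique2 (hS : Exh D z βs S) {J J' N : ℕ} {s : Ω × ℕ} {β β' : Ω} (h : Act D S J N s β)
    (h' : Act D S J' N s β') : β = β' := by
  rcases le_total J J' with hJ | hJ
  · exact Act.unique hS (Act.mono hS hJ h h'.2.2.2) h'
  · exact Act.unique hS h (Act.mono hS hJ h' h.2.2.2)

lemma tl_of_act (hS : Exh D z βs S) {J N : ℕ} {s : Ω × ℕ} {β : Ω} (h : Act D S J N s β) (m : ℕ) :
    tl D S z J N s m = soft J (z ((N, β, 0), m)) := by
  unfold tl
  have h' : ∃ β, Act D S J N s β := ⟨β, h⟩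
  rw [dif_pos h', Act.unique hS h'.choose_spec h]

lemma tl_of_not {J N : ℕ} {s : Ω × ℕ} (h : ¬ ∃ β, Act D S J N s β) (m : ℕ) :
    tl D S z J N s m = 0 := by
  unfold tl; rw [dif_neg h]

/-! ## bounds for `aa` -/

lemma aa_lip (hAS : Stmt_AS) (hS : Exh D z βs S) (k : ℕ → ℕ) (hk : StrictMono k) (K N : ℕ)
    (s : Ω × ℕ) (x y : ℝ) : |aa S k K N s x - aa S k K N s y| ≤ |x - y| := by
  classical
  unfold aa inS
  rcases alt_interval hAS k hk K (fun i => (N, s) ∈ S (k i)) (by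
    obtain ⟨i₀, i₁, h⟩ := interval (fun i => (N, s) ∈ S (k i)) (fun _ => False)
      (fun i j hij h => hS.mono (hk.monotone hij) h) (fun _ _ _ h => h) K
    exact ⟨i₀, i₁, fun i hi => by simpa using h i hi⟩) with h | ⟨i, _, _, h⟩
  · rw [h x, h y, sub_self, abs_zero]; exact abs_nonneg _
  · exact (h x y).trans (soft_lip _ _ _)

omit [LinearOrder Ω] in
lemma aa_zero (k : ℕ → ℕ) (K N : ℕ) (s : Ω × ℕ) : aa S k K N s 0 = 0 := by
  unfold aa inS
  apply Finset.sum_eq_zero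
  intro i _
  rw [soft_zero]
  split_ifs <;> ring

lemma aa_abs (hAS : Stmt_AS) (hS : Exh D z βs S) (k : ℕ → ℕ) (hk : StrictMono k) (K N : ℕ)
    (s : Ω × ℕ) (x : ℝ) : |aa S k K N s x| ≤ |x| := by
  have := aa_lip hAS hS k hk K N s x 0
  rwa [aa_zero, sub_zero, sub_zero] at this

/-! ## bounds for `bb` -/

/-- the levels where `β` is active at `s` -/
def PP (S : ℕ → Set (ℕ × Ω × ℕ)) (k : ℕ → ℕ) (N : ℕ) (β : Ω) (s : Ω × ℕ) (i : ℕ) : Prop :=
  (N, β, 0) ∈ S (k i) ∧ (N, s) ∉ S (k i)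

lemma bb_cases (hAS : Stmt_AS) (hS : Exh D z βs S) (k : ℕ → ℕ) (hk : StrictMono k) (K N : ℕ)
    (s : Ω × ℕ) : (∀ m, bb D S z k K N s m = 0) ∨
    ∃ i < K, ∃ β, Act D S (k i) N s β ∧
      (∀ m m', |bb D S z k K N s m - bb D S z k K N s m'| ≤
        |soft (k i) (z ((N, β, 0), m)) - soft (k i) (z ((N, β, 0), m'))|) ∧
      (∀ m, |bb D S z k K N s m| ≤ |z ((N, β, 0), m)|) := by
  classical
  by_cases hex : ∃ i < K, ∃ β, Act D S (k i) N s β
  · obtain ⟨i₀, hi₀, β, hβ⟩ := hex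
    have hsum : ∀ m, bb D S z k K N s m = ∑ i ∈ Finset.range K, (-1 : ℝ) ^ i *
        (if PP S k N β s i then soft (k i) (z ((N, β, 0), m)) else 0) := by
      intro m
      unfold bb
      apply Finset.sum_congr rfl
      intro i hi
      congr 1
      split_ifs with h
      · exact tl_of_act hS ⟨hβ.1, h.1, hβ.2.2.1, h.2⟩ m
      · apply tl_of_not
        rintro ⟨β', hβ'⟩
        have := Act.unique2 hS hβ hβ'
        subst this
        exact h ⟨hβ'.2.1, hβ'.2.2.2⟩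
    rcases alt_interval hAS k hk K (PP S k N β s)
      (interval (fun i => (N, β, 0) ∈ S (k i)) (fun i => (N, s) ∈ S (k i))
        (fun i j hij h => hS.mono (hk.monotone hij) h)
        (fun i j hij h => hS.mono (hk.monotone hij) h) K) with h | ⟨i, hi, hP, h⟩
    · left
      intro m
      rw [hsum m]
      exact h _
    · right
      refine ⟨i, hi, β, ⟨hβ.1, hP.1, hβ.2.2.1, hP.2⟩, ?_, ?_⟩
      · intro m m'
        rw [hsum m, hsum m']
        exact h _ _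
      · intro m
        rw [hsum m]
        have h0 := h (z ((N, β, 0), m)) 0
        have e : ∑ i ∈ Finset.range K, (-1 : ℝ) ^ i *
          (if PP S k N β s i then soft (k i) 0 else 0) = 0 := by
          apply Finset.sum_eq_zero
          intro i _
          rw [soft_zero]
          split_ifs <;> ring
        rw [e, sub_zero, soft_zero, sub_zero] at h0
        exact h0.trans (soft_abs_le _ _)
  · left
    intro m
    unfold bb
    apply Finset.sum_eq_zero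
    intro i hi
    rw [tl_of_not (fun h => hex ⟨i, Finset.mem_range.mp hi, h⟩), mul_zero]

lemma bb_abs (hAS : Stmt_AS) (hS : Exh D z βs S) (k : ℕ → ℕ) (hk : StrictMono k) (K N : ℕ)
    (s : Ω × ℕ) {C : ℝ} (hC : ∀ p, |z p| ≤ C) (hC0 : 0 ≤ C) (m : ℕ) :
    |bb D S z k K N s m| ≤ C := by
  rcases bb_cases hAS hS k hk K N s with h | ⟨i, _, β, _, _, h⟩
  · rw [h m, abs_zero]; exact hC0
  · exact (h m).trans (hC _)

/-- variation of the tail coefficient -/
lemma bb_var (hAS : Stmt_AS) (hS : Exh D z βs S) (k : ℕ → ℕ) (hk : StrictMono k) (K N : ℕ)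
    (s : Ω × ℕ) (n : ℕ) (hn : D.dep s ≤ n) : TVle (th n : ℝ) (bb D S z k K N s) := by
  rcases bb_cases hAS hS k hk K N s with h | ⟨i, _, β, hA, h, _⟩
  · have e : bb D S z k K N s = fun _ => 0 := by funext m; exact h m
    rw [e]
    exact (TVle.const 0).mono (by positivity)
  · obtain ⟨h1, h2, ⟨a, h3⟩, h4⟩ := hA
    have h5 : D.dep s = a := by rw [h3]; exact D.lad_dep β h1 a
    have h6 := hS.thr (k i) N β h1 h2 a (by rw [← h3]; exact h4) n (by omega)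
    exact h6.comp h

/-! ## pointwise bound for `gg` -/

lemma gg_abs (hAS : Stmt_AS) (hS : Exh D z βs S) (k : ℕ → ℕ) (hk : StrictMono k) (K : ℕ)
    {C : ℝ} (hC : ∀ p, |z p| ≤ C) (hC0 : 0 ≤ C) (p : Pt Ω) : |gg D S z k K p| ≤ 2 * C := by
  unfold gg
  have h1 := (aa_abs hAS hS k hk K p.1.1 (sl p.1) (z p)).trans (hC p)
  have h2 := (aa_abs hAS hS k hk K p.1.1 (sr p.1) (z p)).trans (hC p)
  have h3 := bb_abs hAS hS k hk K p.1.1 (ns p.1) hC hC0 p.2
  have h4 := fr_nonneg p.1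
  have h5 := fr_le_one p.1
  have h6 := tent_nonneg p.1.1 p.1.2.2
  have h7 := tent_le_one p.1.1 p.1.2.2
  calc _ ≤ |(1 - fr p.1) * aa S k K p.1.1 (sl p.1) (z p)| + |fr p.1 * aa S k K p.1.1 (sr p.1) (z p)|
        + |tent p.1.1 p.1.2.2 * bb D S z k K p.1.1 (ns p.1) p.2| := abs_add_three _ _ _
    _ ≤ (1 - fr p.1) * C + fr p.1 * C + 1 * C := by
      rw [abs_mul, abs_mul, abs_mul, abs_of_nonneg h4, abs_of_nonneg h6,
        abs_of_nonneg (by linarith : 0 ≤ 1 - fr p.1)]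
      gcongr
    _ = 2 * C := by ring

/-- fibre tests of `gg` -/
lemma gg_fib (hAS : Stmt_AS) (hS : Exh D z βs S) (k : ℕ → ℕ) (hk : StrictMono k) (K : ℕ)
    {C : ℝ} (hz : D.Bd C z) (n c : ℕ) (hn : label n = some c) (v : Vx Ω) (hv : v ∈ D.A c)
    (hd : D.depv v ≤ n) (ms : ℕ → ℕ) (hms : Monotone ms) :
    ∑ i ∈ Finset.range (Kn n), |gg D S z k K (v, ms (i + 1)) - gg D S z k K (v, ms i)| ≤
      (C + 1) * (th n : ℝ) := by
  have h4 := fr_nonneg v
  have h5 := fr_le_one v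
  have h6 := tent_nonneg v.1 v.2.2
  have h7 := tent_le_one v.1 v.2.2
  have h1 := hz.fib n c hn v hv hd ms hms
  have h2 := bb_var hAS hS k hk K v.1 (ns v) n hd ms hms (Kn n)
  have key : ∀ i, |gg D S z k K (v, ms (i + 1)) - gg D S z k K (v, ms i)| ≤
      |z (v, ms (i + 1)) - z (v, ms i)| +
      |bb D S z k K v.1 (ns v) (ms (i + 1)) - bb D S z k K v.1 (ns v) (ms i)| := by
    intro i
    unfold gg
    simp only
    have a1 := aa_lip hAS hS k hk K v.1 (sl v) (z (v, ms (i + 1))) (z (v, ms i))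
    have a2 := aa_lip hAS hS k hk K v.1 (sr v) (z (v, ms (i + 1))) (z (v, ms i))
    set x := z (v, ms (i + 1))
    set y := z (v, ms i)
    set b1 := bb D S z k K v.1 (ns v) (ms (i + 1))
    set b2 := bb D S z k K v.1 (ns v) (ms i)
    have e : (1 - fr v) * aa S k K v.1 (sl v) x + fr v * aa S k K v.1 (sr v) x + tent v.1 v.2.2 * b1
      - ((1 - fr v) * aa S k K v.1 (sl v) y + fr v * aa S k K v.1 (sr v) y + tent v.1 v.2.2 * b2)
      = (1 - fr v) * (aa S k K v.1 (sl v) x - aa S k K v.1 (sl v) y) +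
        fr v * (aa S k K v.1 (sr v) x - aa S k K v.1 (sr v) y) + tent v.1 v.2.2 * (b1 - b2) := by
      ring
    rw [e]
    calc _ ≤ |(1 - fr v) * (aa S k K v.1 (sl v) x - aa S k K v.1 (sl v) y)| +
        |fr v * (aa S k K v.1 (sr v) x - aa S k K v.1 (sr v) y)| + |tent v.1 v.2.2 * (b1 - b2)| :=
          abs_add_three _ _ _
      _ ≤ (1 - fr v) * |x - y| + fr v * |x - y| + 1 * |b1 - b2| := by
        rw [abs_mul, abs_mul, abs_mul, abs_of_nonneg h4, abs_of_nonneg h6,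
          abs_of_nonneg (by linarith : 0 ≤ 1 - fr v)]
        gcongr
      _ = _ := by ring
  calc _ ≤ ∑ i ∈ Finset.range (Kn n), (|z (v, ms (i + 1)) - z (v, ms i)| +
      |bb D S z k K v.1 (ns v) (ms (i + 1)) - bb D S z k K v.1 (ns v) (ms i)|) :=
        Finset.sum_le_sum fun i _ => key i
    _ ≤ C * (th n : ℝ) + (th n : ℝ) := by
        rw [Finset.sum_add_distrib]
        exact add_le_add h1 h2
    _ = _ := by ring

end AL
end Pool.Agent.MP156639
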