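import Pool.Agent.Work.MP_156639_an_helper43.AL2

/-!
# MP_156639_an : block AL, part 3 (link and path tests)
-/

set_option autoImplicit false

open scoped BigOperators
open Filter Topology

namespace Pool.Agent.MP156639
namespace AL

variable {Ω : Type} [LinearOrder Ω]
variable {D : LD Ω} {S : ℕ → Set (ℕ × Ω × ℕ)} {z : Pt Ω → ℝ} {βs : Ω}

/-! ## links -/

lemma gg_link (hAS : Stmt_AS) (hS : Exh D z βs S) (k : ℕ → ℕ) (hk : StrictMono k) (K : ℕ)
    {C : ℝ} (hz : D.Bd C z) (N : ℕ) (β : Ω) (l m : ℕ) :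
    ((N : ℝ) + 1) * |gg D S z k K ((N, β, l), m) - gg D S z k K ((N, β, l + 1), m)| ≤ 3 * C := by
  have hC0 : 0 ≤ C := hz.nonneg ((N, β, l), m)
  have hW : (0 : ℝ) < (N : ℝ) + 1 := by positivity
  set v : Vx Ω := (N, β, l) with hv
  set v' : Vx Ω := (N, β, l + 1) with hv'
  set x := z (v, m) with hx
  set x' := z (v', m) with hx'
  have hxx : ((N : ℝ) + 1) * |x - x'| ≤ C := hz.link N β l m
  have hxC : |x| ≤ C := hz.pt _
  have hxC' : |x'| ≤ C := hz.pt _
  -- tail part
  have htail : ((N : ℝ) + 1) * |tent N l * bb D S z k K N (ns v) m -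
      tent N (l + 1) * bb D S z k K N (ns v') m| ≤ C := by
    have := tent_link N l (fun j => bb D S z k K N (β, j) m) C
      (fun j => bb_abs hAS hS k hk K N (β, j) hz.pt hC0 m)
    rw [mul_comm (bb D S z k K N (β, near N l) m), mul_comm (bb D S z k K N (β, near N (l+1)) m)]
      at this
    exact this
  -- first part
  have hfirst : ((N : ℝ) + 1) * |((1 - fr v) * aa S k K N (sl v) x + fr v * aa S k K N (sr v) x) -
      ((1 - fr v') * aa S k K N (sl v') x' + fr v' * aa S k K N (sr v') x')| ≤ 2 * C := by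
    set q := l / (2 * (N + 1)) with hq
    set r := l % (2 * (N + 1)) with hr
    have hqr : 2 * (N + 1) * q + r = l := Nat.div_add_mod l (2 * (N + 1))
    have hrlt : r < 2 * (N + 1) := Nat.mod_lt _ (by omega)
    have hsl : sl v = (β, q) := rfl
    have hsr : sr v = (β, q + 1) := rfl
    have hfr : fr v = (r : ℝ) / (2 * ((N : ℝ) + 1)) := rfl
    have hf0 := fr_nonneg v
    have hf1 := fr_le_one v
    have hW2 : (0 : ℝ) < 2 * ((N : ℝ) + 1) := by positivity
    have A0l := aa_lip hAS hS k hk K N (β, q) x x'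
    have A1l := aa_lip hAS hS k hk K N (β, q + 1) x x'
    have A0x := (aa_abs hAS hS k hk K N (β, q) x).trans hxC
    have A1x := (aa_abs hAS hS k hk K N (β, q + 1) x).trans hxC
    have A0x' := (aa_abs hAS hS k hk K N (β, q) x').trans hxC'
    have A1x' := (aa_abs hAS hS k hk K N (β, q + 1) x').trans hxC'
    by_cases hcase : r + 1 < 2 * (N + 1)
    · have hq' : (l + 1) / (2 * (N + 1)) = q := by
        apply Nat.div_eq_of_lt_le
        · rw [mul_comm]; omega
        · rw [mul_comm, mul_add (2 * (N + 1)) q 1, mul_one]; omega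
      have hr' : (l + 1) % (2 * (N + 1)) = r + 1 := by
        have := Nat.div_add_mod (l + 1) (2 * (N + 1))
        rw [hq'] at this
        omega
      have hsl' : sl v' = (β, q) := by
        show (β, (l + 1) / (2 * (N + 1))) = (β, q)
        rw [hq']
      have hsr' : sr v' = (β, q + 1) := by
        show (β, (l + 1) / (2 * (N + 1)) + 1) = (β, q + 1)
        rw [hq']
      have hfr' : fr v' = fr v + 1 / (2 * ((N : ℝ) + 1)) := by
        rw [hfr]
        show (((l + 1) % (2 * (N + 1)) : ℕ) : ℝ) / (2 * ((N : ℝ) + 1)) = _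
        rw [hr', ← add_div]
        push_cast
        ring
      rw [hsl, hsr, hsl', hsr', hfr']
      set A0 := aa S k K N (β, q)
      set A1 := aa S k K N (β, q + 1)
      set f := fr v
      have e : (1 - f) * A0 x + f * A1 x -
          ((1 - (f + 1 / (2 * ((N : ℝ) + 1)))) * A0 x' + (f + 1 / (2 * ((N : ℝ) + 1))) * A1 x') =
          (1 - f) * (A0 x - A0 x') + f * (A1 x - A1 x') +
            1 / (2 * ((N : ℝ) + 1)) * (A0 x' - A1 x') := by ring
      rw [e]
      have h1 : |A0 x' - A1 x'| ≤ 2 * C := by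
        rw [abs_le] at A0x' A1x' ⊢
        constructor <;> linarith [A0x'.1, A0x'.2, A1x'.1, A1x'.2]
      calc ((N : ℝ) + 1) * |(1 - f) * (A0 x - A0 x') + f * (A1 x - A1 x') +
            1 / (2 * ((N : ℝ) + 1)) * (A0 x' - A1 x')|
          ≤ ((N : ℝ) + 1) * (|(1 - f) * (A0 x - A0 x')| + |f * (A1 x - A1 x')| +
            |1 / (2 * ((N : ℝ) + 1)) * (A0 x' - A1 x')|) := by
            gcongr; exact abs_add_three _ _ _
        _ ≤ ((N : ℝ) + 1) * ((1 - f) * |x - x'| + f * |x - x'| +
            1 / (2 * ((N : ℝ) + 1)) * (2 * C)) := by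
            rw [abs_mul, abs_mul, abs_mul, abs_of_nonneg hf0,
              abs_of_nonneg (by linarith : 0 ≤ 1 - f),
              abs_of_pos (by positivity : 0 < 1 / (2 * ((N : ℝ) + 1)))]
            gcongr
        _ = ((N : ℝ) + 1) * |x - x'| + C := by field_simp; ring
        _ ≤ 2 * C := by linarith
    · have hr1 : r + 1 = 2 * (N + 1) := by omega
      have hq' : (l + 1) / (2 * (N + 1)) = q + 1 := by
        apply Nat.div_eq_of_lt_le
        · rw [mul_comm, mul_add (2 * (N + 1)) q 1, mul_one]; omega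
        · rw [mul_comm, mul_add (2 * (N + 1)) (q + 1) 1, mul_one,
            mul_add (2 * (N + 1)) q 1, mul_one]; omega
      have hr' : (l + 1) % (2 * (N + 1)) = 0 := by
        have := Nat.div_add_mod (l + 1) (2 * (N + 1))
        rw [hq', mul_add (2 * (N + 1)) q 1, mul_one] at this
        omega
      have hsl' : sl v' = (β, q + 1) := by
        show (β, (l + 1) / (2 * (N + 1))) = (β, q + 1)
        rw [hq']
      have hfr' : fr v' = 0 := by
        show (((l + 1) % (2 * (N + 1)) : ℕ) : ℝ) / (2 * ((N : ℝ) + 1)) = _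
        rw [hr']; simp
      have hfr2 : fr v = 1 - 1 / (2 * ((N : ℝ) + 1)) := by
        rw [hfr]
        have : (r : ℝ) + 1 = 2 * ((N : ℝ) + 1) := by exact_mod_cast hr1
        have h2 : (r : ℝ) = 2 * ((N : ℝ) + 1) - 1 := by linarith
        rw [h2, sub_div, div_self hW2.ne']
      rw [hsl, hsr, hsl', hfr', hfr2]
      set A0 := aa S k K N (β, q)
      set A1 := aa S k K N (β, q + 1)
      have e : (1 - (1 - 1 / (2 * ((N : ℝ) + 1)))) * A0 x + (1 - 1 / (2 * ((N : ℝ) + 1))) * A1 x -
          ((1 - 0) * A1 x' + 0 * aa S k K N (sr v') x') =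
          (A1 x - A1 x') + 1 / (2 * ((N : ℝ) + 1)) * (A0 x - A1 x) := by ring
      rw [e]
      have h1 : |A0 x - A1 x| ≤ 2 * C := by
        rw [abs_le] at A0x A1x ⊢
        constructor <;> linarith [A0x.1, A0x.2, A1x.1, A1x.2]
      calc ((N : ℝ) + 1) * |(A1 x - A1 x') + 1 / (2 * ((N : ℝ) + 1)) * (A0 x - A1 x)|
          ≤ ((N : ℝ) + 1) * (|A1 x - A1 x'| + |1 / (2 * ((N : ℝ) + 1)) * (A0 x - A1 x)|) := by
            gcongr; exact abs_add_le _ _
        _ ≤ ((N : ℝ) + 1) * (|x - x'| + 1 / (2 * ((N : ℝ) + 1)) * (2 * C)) := by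
            rw [abs_mul (1 / (2 * ((N : ℝ) + 1))),
              abs_of_pos (by positivity : 0 < 1 / (2 * ((N : ℝ) + 1)))]
            gcongr
        _ = ((N : ℝ) + 1) * |x - x'| + C := by field_simp
        _ ≤ 2 * C := by linarith
  have e : gg D S z k K (v, m) - gg D S z k K (v', m) =
      (((1 - fr v) * aa S k K N (sl v) x + fr v * aa S k K N (sr v) x) -
      ((1 - fr v') * aa S k K N (sl v') x' + fr v' * aa S k K N (sr v') x')) +
      (tent N l * bb D S z k K N (ns v) m - tent N (l + 1) * bb D S z k K N (ns v') m) := by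
    unfold gg
    simp only [← hx, ← hx']
    have e1 : v.1 = N := rfl
    have e3 : v.2.2 = l := rfl
    have e4 : v'.2.2 = l + 1 := rfl
    rw [e1, e3, e4]
    ring
  rw [e]
  calc _ ≤ ((N : ℝ) + 1) * (|((1 - fr v) * aa S k K N (sl v) x + fr v * aa S k K N (sr v) x) -
      ((1 - fr v') * aa S k K N (sl v') x' + fr v' * aa S k K N (sr v') x')| +
      |tent N l * bb D S z k K N (ns v) m - tent N (l + 1) * bb D S z k K N (ns v') m|) := by
        gcongr; exact abs_add_le _ _
    _ ≤ 2 * C + C := by rw [mul_add]; exact add_le_add hfirst htail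
    _ = 3 * C := by ring

/-! ## path tests -/

lemma gg_st (k : ℕ → ℕ) (K N : ℕ) (s : Ω × ℕ) (m : ℕ) :
    gg D S z k K (st N s, m) = aa S k K N s (z (st N s, m)) + bb D S z k K N s m := by
  unfold gg
  simp only
  have h1 : sl (st N s) = s := by
    unfold sl st
    simp only
    rw [Nat.mul_div_cancel_left _ (by omega : 0 < 2 * (N + 1))]
  have h2 : fr (st N s) = 0 := by
    unfold fr st
    simp
  rw [h1, h2, ns_st]
  have h3 : (st N s).1 = N := rfl
  have h4 : (st N s).2.2 = 2 * (N + 1) * s.2 := rfl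
  rw [h3, h4, tent_station]
  ring

open Classical in
/-- the potential along a ladder -/
noncomputable def phi (D : LD Ω) (S : ℕ → Set (ℕ × Ω × ℕ)) (k : ℕ → ℕ) (K N : ℕ) (β : Ω)
    (a : ℕ) : ℕ :=
  2 * ((Finset.range K).filter (fun i => (N, D.lad β a) ∉ S (k i))).card +
    if ∃ i < K, ∃ β', Act D S (k i) N (D.lad β a) β' then 0 else 1

lemma phi_le (k : ℕ → ℕ) (K N : ℕ) (β : Ω) (a : ℕ) : phi D S k K N β a ≤ 2 * K + 1 := by
  classical
  unfold phi
  have h := Finset.card_filter_le (Finset.range K) (fun i => (N, D.lad β a) ∉ S (k i))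
  rw [Finset.card_range] at h
  split_ifs <;> omega

/-- activity goes down the ladder -/
lemma act_down (hS : Exh D z βs S) {J N : ℕ} {β : Ω} (hβ : NonMin β) {a b : ℕ} (hab : a ≤ b)
    {β' : Ω} (h : Act D S J N (D.lad β b) β') (ha : (N, D.lad β a) ∉ S J) :
    Act D S J N (D.lad β a) β' := by
  obtain ⟨h1, h2, ⟨b', h3⟩, h4⟩ := h
  refine ⟨h1, h2, ⟨a, ?_⟩, ha⟩
  exact (D.lad_tree β β' hβ h1 b b' h3).2 a hab

lemma filter_sub (hS : Exh D z βs S) (k : ℕ → ℕ) (K N : ℕ) {β : Ω} (hβ : NonMin β) {a b : ℕ}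
    (hab : a ≤ b) : ∀ i, (N, D.lad β a) ∉ S (k i) → (N, D.lad β b) ∉ S (k i) :=
  fun i h h' => h (hS.pred (k i) N β hβ b a hab h')

lemma phi_mono (hS : Exh D z βs S) (k : ℕ → ℕ) (K N : ℕ) {β : Ω} (hβ : NonMin β) :
    Monotone (phi D S k K N β) := by
  classical
  intro a b hab
  unfold phi
  have hsub : (Finset.range K).filter (fun i => (N, D.lad β a) ∉ S (k i)) ⊆
      (Finset.range K).filter (fun i => (N, D.lad β b) ∉ S (k i)) := by
    intro i hi
    simp only [Finset.mem_filter] at hi ⊢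
    exact ⟨hi.1, filter_sub hS k K N hβ hab i hi.2⟩
  rcases Nat.lt_or_ge ((Finset.range K).filter (fun i => (N, D.lad β a) ∉ S (k i))).card
    ((Finset.range K).filter (fun i => (N, D.lad β b) ∉ S (k i))).card with h | h
  · split_ifs <;> omega
  · have heq := Finset.eq_of_subset_of_card_le hsub h
    rw [heq]
    by_cases h2 : ∃ i < K, ∃ β', Act D S (k i) N (D.lad β b) β'
    · obtain ⟨i, hi, β', h3⟩ := h2
      have h4 : i ∈ (Finset.range K).filter (fun i => (N, D.lad β b) ∉ S (k i)) := by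
        simp only [Finset.mem_filter, Finset.mem_range]
        exact ⟨hi, h3.2.2.2⟩
      rw [← heq] at h4
      simp only [Finset.mem_filter, Finset.mem_range] at h4
      have h5 : ∃ i < K, ∃ β', Act D S (k i) N (D.lad β a) β' :=
        ⟨i, hi, β', act_down hS hβ hab h3 h4.2⟩
      rw [if_pos h5]
      omega
    · rw [if_neg h2]
      split_ifs <;> omega

lemma phi_eq (hS : Exh D z βs S) (k : ℕ → ℕ) (K N : ℕ) {β : Ω} (hβ : NonMin β)
    {a b : ℕ} (hab : a ≤ b) (h : phi D S k K N β a = phi D S k K N β b) :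
    aa S k K N (D.lad β a) = aa S k K N (D.lad β b) ∧
    bb D S z k K N (D.lad β a) = bb D S z k K N (D.lad β b) := by
  classical
  unfold phi at h
  have hsub : (Finset.range K).filter (fun i => (N, D.lad β a) ∉ S (k i)) ⊆
      (Finset.range K).filter (fun i => (N, D.lad β b) ∉ S (k i)) := by
    intro i hi
    simp only [Finset.mem_filter] at hi ⊢
    exact ⟨hi.1, filter_sub hS k K N hβ hab i hi.2⟩
  have hcard := Finset.card_le_card hsub
  have hcardeq : ((Finset.range K).filter (fun i => (N, D.lad β a) ∉ S (k i))).card =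
      ((Finset.range K).filter (fun i => (N, D.lad β b) ∉ S (k i))).card := by
    split_ifs at h <;> omega
  have heq := Finset.eq_of_subset_of_card_le hsub hcardeq.ge
  have hiff : ∀ i < K, (N, D.lad β a) ∈ S (k i) ↔ (N, D.lad β b) ∈ S (k i) := by
    intro i hi
    have h1 : i ∈ (Finset.range K).filter (fun i => (N, D.lad β a) ∉ S (k i)) ↔
      i ∈ (Finset.range K).filter (fun i => (N, D.lad β b) ∉ S (k i)) := by rw [heq]
    simp only [Finset.mem_filter, Finset.mem_range, hi, true_and] at h1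
    exact not_iff_not.mp h1
  have hact : (∃ i < K, ∃ β', Act D S (k i) N (D.lad β a) β') →
      ∃ i < K, ∃ β', Act D S (k i) N (D.lad β b) β' := by
    intro h1
    by_contra h2
    rw [if_pos h1, if_neg h2] at h
    omega
  constructor
  · funext x
    unfold aa inS
    apply Finset.sum_congr rfl
    intro i hi
    simp only [hiff i (Finset.mem_range.mp hi)]
  · funext m
    unfold bb
    apply Finset.sum_congr rfl
    intro i hi
    have hi' := Finset.mem_range.mp hi
    congr 1
    by_cases h1 : ∃ β', Act D S (k i) N (D.lad β a) β'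
    · obtain ⟨β', h2⟩ := h1
      obtain ⟨i', hi2, β'', h3⟩ := hact ⟨i, hi', β', h2⟩
      have h4 : Act D S (k i') N (D.lad β a) β'' :=
        act_down hS hβ hab h3 (fun h => h3.2.2.2 ((hiff i' hi2).mp h))
      have h5 := Act.unique2 hS h2 h4
      subst h5
      have h6 : Act D S (k i) N (D.lad β b) β' :=
        ⟨h2.1, h2.2.1, h3.2.2.1, fun h => h2.2.2.2 ((hiff i hi').mpr h)⟩
      rw [tl_of_act hS h2, tl_of_act hS h6]
    · have h2 : ¬ ∃ β', Act D S (k i) N (D.lad β b) β' := by
        rintro ⟨β', h3⟩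
        exact h1 ⟨β', act_down hS hβ hab h3 (fun h => h3.2.2.2 ((hiff i hi').mp h))⟩
      rw [tl_of_not h1, tl_of_not h2]

lemma gg_pair (hAS : Stmt_AS) (hS : Exh D z βs S) (k : ℕ → ℕ) (hk : StrictMono k) (K : ℕ)
    {C : ℝ} (hz : D.Bd C z) (N : ℕ) {β : Ω} (hβ : NonMin β) {a b : ℕ} (hab : a ≤ b) (m : ℕ) :
    |gg D S z k K (st N (D.lad β a), m) - gg D S z k K (st N (D.lad β b), m)| ≤
      |z (st N (D.lad β a), m) - z (st N (D.lad β b), m)| +
      4 * C * |(phi D S k K N β a : ℝ) - (phi D S k K N β b : ℝ)| := by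
  have hC0 : 0 ≤ C := hz.nonneg ((N, β, 0), m)
  by_cases h : phi D S k K N β a = phi D S k K N β b
  · obtain ⟨h1, h2⟩ := phi_eq (z := z) hS k K N hβ hab h
    rw [gg_st, gg_st, h1, h2, h, sub_self, abs_zero, mul_zero, add_zero]
    rw [add_sub_add_right_eq_sub]
    exact aa_lip hAS hS k hk K N _ _ _
  · have h1 := gg_abs hAS hS k hk K hz.pt hC0 (st N (D.lad β a), m)
    have h2 := gg_abs hAS hS k hk K hz.pt hC0 (st N (D.lad β b), m)
    have h3 : (1 : ℝ) ≤ |(phi D S k K N β a : ℝ) - (phi D S k K N β b : ℝ)| := by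
      have h4 : ((phi D S k K N β a : ℤ) - (phi D S k K N β b : ℤ)) ≠ 0 := by
        intro h5
        apply h
        omega
      have h5 := Int.one_le_abs h4
      exact_mod_cast h5
    have h4 : |gg D S z k K (st N (D.lad β a), m) - gg D S z k K (st N (D.lad β b), m)| ≤
        4 * C := by
      rw [abs_le] at h1 h2 ⊢
      constructor <;> linarith [h1.1, h1.2, h2.1, h2.2]
    have h5 : 4 * C * 1 ≤ 4 * C * |(phi D S k K N β a : ℝ) - (phi D S k K N β b : ℝ)| :=
      mul_le_mul_of_nonneg_left h3 (by linarith)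
    have h6 := abs_nonneg (z (st N (D.lad β a), m) - z (st N (D.lad β b), m))
    linarith

/-- path tests of `gg` -/
lemma gg_path (hAS : Stmt_AS) (hS : Exh D z βs S) (k : ℕ → ℕ) (hk : StrictMono k) (K : ℕ)
    {C : ℝ} (hz : D.Bd C z) (n : ℕ) (hn : label n = none) (N : ℕ) {β : Ω} (hβ : NonMin β)
    (a b m : ℕ → ℕ) (hab : ∀ i, a i ≤ b i ∧ b i ≤ a (i + 1)) :
    ∑ i ∈ Finset.range (Kn n), |gg D S z k K (st N (D.lad β (a i)), m i) -
      gg D S z k K (st N (D.lad β (b i)), m i)| ≤
      C * (th n : ℝ) + 4 * C * (2 * (K : ℝ) + 1) := by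
  have hC0 : 0 ≤ C := hz.nonneg ((N, β, 0), 0)
  have h1 := hz.path n hn N β hβ a b m hab
  have h2 : TVle ((2 * (K : ℝ) + 1) - 0) (fun a => (phi D S k K N β a : ℝ)) := by
    apply TVle.of_monotone
    · intro a b hab
      show (phi D S k K N β a : ℝ) ≤ (phi D S k K N β b : ℝ)
      exact_mod_cast phi_mono hS k K N hβ hab
    · intro a; positivity
    · intro a; exact_mod_cast phi_le k K N β a
  have h3 := h2.pairs hab (Kn n)
  calc _ ≤ ∑ i ∈ Finset.range (Kn n), (|z (st N (D.lad β (a i)), m i) -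
        z (st N (D.lad β (b i)), m i)| +
        4 * C * |(phi D S k K N β (a i) : ℝ) - (phi D S k K N β (b i) : ℝ)|) :=
        Finset.sum_le_sum fun i _ => gg_pair hAS hS k hk K hz N hβ (hab i).1 (m i)
    _ ≤ C * (th n : ℝ) + 4 * C * ((2 * (K : ℝ) + 1) - 0) := by
        rw [Finset.sum_add_distrib, ← Finset.mul_sum]
        exact add_le_add h1 (mul_le_mul_of_nonneg_left h3 (by linarith))
    _ = _ := by ring

lemma gg_path' (hAS : Stmt_AS) (hS : Exh D z βs S) (k : ℕ → ℕ) (hk : StrictMono k) (K : ℕ)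
    {C : ℝ} (hz : D.Bd C z) (n : ℕ) (N : ℕ) {β : Ω} (a b m : ℕ → ℕ) :
    ∑ i ∈ Finset.range (Kn n), |gg D S z k K (st N (D.lad β (a i)), m i) -
      gg D S z k K (st N (D.lad β (b i)), m i)| ≤ 4 * C * (Kn n : ℝ) := by
  have hC0 : 0 ≤ C := hz.nonneg ((N, β, 0), 0)
  calc _ ≤ ∑ i ∈ Finset.range (Kn n), 4 * C := by
        apply Finset.sum_le_sum
        intro i _
        have h1 := gg_abs hAS hS k hk K hz.pt hC0 (st N (D.lad β (a i)), m i)
        have h2 := gg_abs hAS hS k hk K hz.pt hC0 (st N (D.lad β (b i)), m i)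
        rw [abs_le] at h1 h2 ⊢
        constructor <;> linarith [h1.1, h1.2, h2.1, h2.2]
    _ = _ := by rw [Finset.sum_const, Finset.card_range, nsmul_eq_mul]; ring

/-- bound for arbitrary alternating sums (no label condition) -/
lemma gg_bd1 (hAS : Stmt_AS) (hS : Exh D z βs S) (k : ℕ → ℕ) (hk : StrictMono k)
    {C : ℝ} (hz : D.Bd C z) (hC0 : 0 ≤ C) : D.Bd (13 * C + 1) (gg D S z k 1) where
  pt p := (gg_abs hAS hS k hk 1 hz.pt hC0 p).trans (by linarith)
  link N β l m := (gg_link hAS hS k hk 1 hz N β l m).trans (by linarith)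
  fib n c hn v hv hd ms hms := by
    refine (gg_fib hAS hS k hk 1 hz n c hn v hv hd ms hms).trans ?_
    have := one_le_th n
    nlinarith
  path n hn N β hβ a b m hab := by
    refine (gg_path hAS hS k hk 1 hz n hn N hβ a b m hab).trans ?_
    have := one_le_th n
    push_cast
    nlinarith

lemma gg_bd (hAS : Stmt_AS) (hS : Exh D z βs S) (k : ℕ → ℕ) (hk : StrictMono k)
    {C : ℝ} (hz : D.Bd C z) (hC0 : 0 ≤ C) (n₀ c₀ : ℕ) (hn₀ : label n₀ = some c₀) :
    D.Bd ((13 * C + 1) * (Rp n₀ : ℝ)) (gg D S z k (Kn n₀)) where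
  pt p := by
    refine (gg_abs hAS hS k hk _ hz.pt hC0 p).trans ?_
    have := one_le_Rp n₀
    nlinarith
  link N β l m := by
    refine (gg_link hAS hS k hk _ hz N β l m).trans ?_
    have := one_le_Rp n₀
    nlinarith
  fib n c hn v hv hd ms hms := by
    refine (gg_fib hAS hS k hk _ hz n c hn v hv hd ms hms).trans ?_
    have := one_le_Rp n₀
    apply mul_le_mul_of_nonneg_right _ (by positivity)
    nlinarith
  path n hn N β hβ a b m hab := by
    have hR := one_le_Rp n₀
    have ht := one_le_th n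
    rcases lt_trichotomy n n₀ with h | h | h
    · refine (gg_path' hAS hS k hk _ hz n N a b m).trans ?_
      have := Kn_le_Rp h
      calc 4 * C * (Kn n : ℝ) ≤ 4 * C * ((Rp n₀ : ℝ) * (th n : ℝ)) := by gcongr
        _ ≤ (13 * C + 1) * ((Rp n₀ : ℝ) * (th n : ℝ)) := by gcongr; linarith
        _ = _ := by ring
    · subst h
      rw [hn₀] at hn
      exact absurd hn (by simp)
    · refine (gg_path hAS hS k hk _ hz n hn N hβ a b m hab).trans ?_
      have h1 := Kn_le_th_real h
      calc C * (th n : ℝ) + 4 * C * (2 * (Kn n₀ : ℝ) + 1)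
          ≤ C * (th n : ℝ) + 4 * C * (2 * (th n : ℝ) + (th n : ℝ)) := by gcongr
        _ = 13 * C * (th n : ℝ) := by ring
        _ ≤ (13 * C + 1) * (th n : ℝ) := by gcongr; linarith
        _ ≤ (13 * C + 1) * ((Rp n₀ : ℝ) * (th n : ℝ)) := by
          apply mul_le_mul_of_nonneg_left _ (by linarith)
          nlinarith
        _ = _ := by ring

end AL
end Pool.Agent.MP156639
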